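import Pool.Agent.Helper47.ER.Goals
import Pool.Agent.Helper2.EP.FLD

/-!
# Packet ER-FLD2 (project ER, MP_5b9a11_al): the symplectic space with scalings
-/

set_option autoImplicit false
set_option linter.unusedSectionVars false

namespace Pool.Agent.Helper98.ER.FLD2

open Pool.Agent.Helper47.EP Pool.Agent.Helper47.ER Pool.Agent.Helper2.EP.FLD

lemma norm_pow {l : ℕ} [Fact l.Prime] {K : Type} [Field K] [Algebra (ZMod l) K] [Fintype K]
    [CharP K l] (hK : Fintype.card K = l ^ 2) (a : ZMod l) :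
    ∃ m : K, m ^ (l + 1) = algebraMap (ZMod l) K a := by
  obtain ⟨m, hm⟩ := FiniteField.norm_surjective (ZMod l) K a
  refine ⟨m, ?_⟩
  have h1 : Module.finrank (ZMod l) K = 2 := by
    have h2 := FiniteField.pow_finrank_eq_natCard l K
    rw [Nat.card_eq_fintype_card, hK] at h2
    exact Nat.pow_right_injective (Fact.out : l.Prime).two_le h2
  rw [← hm, FiniteField.algebraMap_norm_eq_prod_pow, h1, Finset.prod_range_succ,
    Finset.prod_range_one, pow_zero, pow_one, pow_one, Nat.card_zmod, pow_succ, mul_comm]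

lemma scale {l : ℕ} [Fact l.Prime] {K : Type} [Field K] [Algebra (ZMod l) K] [Fintype K]
    [CharP K l] (hK : Fintype.card K = l ^ 2) {δ : K} (hδ : δ ^ l = -δ) (a : ZMod l) :
    ∃ m : K, ∀ x y : K, wf l δ (m * x) (m * y) = a * wf l δ x y := by
  obtain ⟨m, hm⟩ := norm_pow (K := K) hK a
  refine ⟨m, fun x y => ?_⟩
  apply am_inj (K := K)
  rw [RingHom.map_mul, wf_eq hK hδ, wf_eq hK hδ, ← hm, mul_pow, mul_pow, pow_succ]
  ring

theorem main {p l : ℕ} (hp : p.Prime) (hp2 : p ≠ 2) [Fact l.Prime] (hl2 : 2 < l) (hdvd : p ∣ l + 1)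
    (hne : l ≠ p) {K : Type} [Field K] [Algebra (ZMod l) K] [Fintype K] [CharP K l]
    (hK : Fintype.card K = l ^ 2) : ∃ T : Dat p, Sc T := by
  have : Fact p.Prime := ⟨hp⟩
  have hl := (Fact.out : l.Prime)
  obtain ⟨ζ, hζ⟩ : ∃ ζ : Kˣ, orderOf ζ = p := by
    apply exists_prime_orderOf_dvd_card'
    rw [Nat.card_units, Nat.card_eq_fintype_card, hK]
    have h1 : l ^ 2 - 1 = (l + 1) * (l - 1) := by
      have := Nat.sq_sub_sq l 1
      simpa using this
    rw [h1]
    exact hdvd.mul_right _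
  have hζl : ζ ^ (l + 1) = 1 := orderOf_dvd_iff_pow_eq_one.1 (hζ ▸ hdvd)
  have hζ2 : (ζ : K) ^ l ≠ ζ := by
    intro h1
    have h2 : ζ ^ 2 = 1 := by
      have h3 : ζ ^ l = ζ := Units.ext (by rw [Units.val_pow_eq_pow_val, h1])
      rw [← hζl, pow_succ ζ l, h3, sq]
    have h3 := orderOf_dvd_of_pow_eq_one h2
    rw [hζ] at h3
    exact hp2 ((Nat.prime_dvd_prime_iff_eq hp Nat.prime_two).1 h3)
  set δ : K := ζ - ζ ^ l with hδdef
  have hδ0 : δ ≠ 0 := fun h => hζ2 (sub_eq_zero.1 h).symm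
  have hδ : δ ^ l = -δ := by
    rw [hδdef, sub_pow_char, pow_ll hK]
    ring
  let z : ZMod p → K := fun j => ((ζ ^ j.val : Kˣ) : K)
  have hsc : ∀ a : ZMod l, ∃ κ : K →+ K, (∀ x y, wf l δ (κ x) (κ y) = a * wf l δ x y) ∧
      ∀ (j : ZMod p) x, κ (AddMonoidHom.mulLeft (z j) x) = AddMonoidHom.mulLeft (z j) (κ x) := by
    intro a
    obtain ⟨m, hm⟩ := scale hK hδ a
    exact ⟨AddMonoidHom.mulLeft m, hm, fun j x => mul_left_comm m (z j) x⟩
  have hz0 : z 0 = 1 := by
    show ((ζ ^ (0 : ZMod p).val : Kˣ) : K) = 1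
    rw [ZMod.val_zero, pow_zero, Units.val_one]
  have hzadd : ∀ j k, z (j + k) = z j * z k := by
    intro j k
    have h1 := pow_mod_orderOf ζ (j.val + k.val)
    rw [hζ] at h1
    show ((ζ ^ (j + k).val : Kˣ) : K) = ((ζ ^ j.val : Kˣ) : K) * ((ζ ^ k.val : Kˣ) : K)
    rw [ZMod.val_add, h1, pow_add, Units.val_mul]
  have hz1 : ∀ j, j ≠ 0 → z j ≠ 1 := by
    intro j hj h1
    have h2 : ζ ^ j.val = 1 := Units.ext h1
    have h3 := orderOf_dvd_of_pow_eq_one h2
    rw [hζ] at h3
    have h4 : j.val = 0 := Nat.eq_zero_of_dvd_of_lt h3 (ZMod.val_lt j)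
    exact hj ((ZMod.val_eq_zero j).1 h4)
  have hzl : ∀ j, z j * z j ^ l = 1 := by
    intro j
    rw [← pow_succ']
    show ((ζ ^ j.val : Kˣ) : K) ^ (l + 1) = 1
    rw [← Units.val_pow_eq_pow_val, ← pow_mul, mul_comm, pow_mul, hζl, one_pow, Units.val_one]
  have h20 : (2 : K) ≠ 0 := by
    have h1 : ((2 : ℕ) : K) ≠ 0 := by
      rw [Ne, CharP.cast_eq_zero_iff K l]
      intro h2
      have := Nat.le_of_dvd two_pos h2
      omega
    exact_mod_cast h1
  refine ⟨{ l := l, K := K, grp := inferInstance, fin := inferInstance,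
            dec := Classical.decEq K, w := wf l δ, t := fun j => AddMonoidHom.mulLeft (z j),
            prime := hl, ne := hne, ne2 := by omega, card := hK, alt := ?_, nondeg := ?_,
            t_zero := ?_, t_add := ?_, inv := ?_, inj := ?_, gauss := ?_ }, ?_⟩
  · intro x
    apply am_inj (K := K)
    rw [wf_eq hK hδ, map_zero]
    ring
  · intro x hx
    refine ⟨x * ζ, fun h => ?_⟩
    have h1 := congrArg (algebraMap (ZMod l) K) h
    rw [wf_eq hK hδ, map_zero, mul_pow] at h1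
    have h2 : δ * (x * (x ^ l * (ζ : K) ^ l) - x ^ l * (x * ζ)) = -(δ * δ * (x * x ^ l)) := by
      rw [hδdef]
      ring
    rw [h2, neg_eq_zero] at h1
    exact mul_ne_zero (mul_ne_zero hδ0 hδ0) (mul_ne_zero hx (pow_ne_zero _ hx)) h1
  · intro x
    show z 0 * x = x
    rw [hz0, one_mul]
  · intro j k x
    show z (j + k) * x = z j * (z k * x)
    rw [hzadd, mul_assoc]
  · intro j x y
    apply am_inj (K := K)
    rw [wf_eq hK hδ, wf_eq hK hδ]
    show δ * (z j * x * (z j * y) ^ l - (z j * x) ^ l * (z j * y)) = _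
    rw [mul_pow, mul_pow]
    have h1 := hzl j
    linear_combination δ * (x * y ^ l - x ^ l * y) * h1
  · intro j hj x hx
    have h1 : (z j - 1) * x = 0 := by
      have h2 : z j * x = x := hx
      rw [sub_mul, one_mul, h2, sub_self]
    exact (mul_eq_zero.1 h1).resolve_left (sub_ne_zero.2 (hz1 j hj))
  · intro j k hj hk y hy
    have hkey := fun x => key hK hδ (hzl j) (hzl k) x (y x) (hy x)
    have hv1 : z k - 1 ≠ 0 := sub_ne_zero.2 (hz1 k hk)
    have hv2 : z k ^ l - 1 ≠ 0 := by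
      intro h1
      have h2 := hzl k
      rw [sub_eq_zero.1 h1, mul_one] at h2
      exact hz1 k hk h2
    constructor
    · intro hjk x
      have h1 := hkey x
      have h2 : z j * z k = 1 := by rw [← hzadd, hjk, hz0]
      rw [h2, sub_self, mul_zero, neg_zero, zero_mul] at h1
      apply am_inj (K := K)
      rw [map_zero]
      exact (mul_eq_zero.1 h1).resolve_left (mul_ne_zero hv1 hv2)
    · intro hjk w
      have hu1 : z j - 1 ≠ 0 := sub_ne_zero.2 (hz1 j hj)
      have huv : z j * z k - 1 ≠ 0 := by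
        rw [← hzadd]
        exact sub_ne_zero.2 (hz1 _ hjk)
      have hzz : ∀ j, z j ^ l ≠ 0 := by
        intro j h1
        have h2 := hzl j
        rw [h1, mul_zero] at h2
        exact zero_ne_one h2
      refine count hK (fun x => wf l δ (z j * x) x + wf l δ (z k * y x) (y x))
        (-(2 * δ * (z j - 1) * (z k - 1) * z j ^ l * z k ^ l * (z j * z k - 1)) /
          ((z k - 1) * (z k ^ l - 1))) ?_ ?_ w
      · refine div_ne_zero (neg_ne_zero.2 ?_) (mul_ne_zero hv1 hv2)
        exact mul_ne_zero (mul_ne_zero (mul_ne_zero (mul_ne_zero (mul_ne_zero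
          (mul_ne_zero h20 hδ0) hu1) hv1) (hzz j)) (hzz k)) huv
      · intro x
        have h1 := hkey x
        rw [div_mul_eq_mul_div, eq_div_iff (mul_ne_zero hv1 hv2), ← h1]
        ring
  · exact fun a _ => hsc a

theorem t : Pool.Agent.Helper47.ER.S_FLD2 := by
  intro p hp hp2
  have : Fact p.Prime := ⟨hp⟩
  have hu : IsUnit (-1 : ZMod p) := isUnit_one.neg
  obtain ⟨l, hl2, hl, hlp⟩ := Nat.forall_exists_prime_gt_and_eq_mod hu 2
  have : Fact l.Prime := ⟨hl⟩
  have hdvd : p ∣ l + 1 := by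
    rw [← ZMod.natCast_eq_zero_iff]
    push_cast
    rw [hlp]
    ring
  have hne : l ≠ p := by
    rintro rfl
    have h1 : l ∣ 1 := (Nat.dvd_add_right (dvd_refl l)).1 hdvd
    have h2 := Nat.le_of_dvd one_pos h1
    omega
  let _ : Fintype (GaloisField l 2) := Fintype.ofFinite _
  have hK : Fintype.card (GaloisField l 2) = l ^ 2 := by
    rw [← Nat.card_eq_fintype_card]
    exact GaloisField.card l 2 two_ne_zero
  exact main hp hp2 hl2 hdvd hne hK

end Pool.Agent.Helper98.ER.FLD2
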